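import Mathlib
import Pool.Agent.Lib.MP_e840b2_an.Main

set_option autoImplicit false

namespace Pool.Agent.Results.MP_e840b2_an.GarsiaGap

open Filter Topology MeasureTheory ProbabilityTheory Finset Pool.Agent.Lib.MP_e840b2_an

/-- Salem number: a real algebraic integer `β > 1` whose other Galois conjugates have modulus at
most one, at least one of them having modulus exactly one. -/
def IsSalem (β : ℝ) : Prop :=
  IsIntegral ℤ β ∧ 1 < β ∧ (∀ z ∈ (minpoly ℚ β).aroots ℂ, z ≠ (β : ℂ) → ‖z‖ ≤ 1) ∧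
    ∃ z ∈ (minpoly ℚ β).aroots ℂ, ‖z‖ = 1

/-- Shannon entropy (natural logarithm) of a real random variable with finitely many values. -/
noncomputable def shannon {Ω : Type*} [MeasurableSpace Ω] (P : Measure Ω) (X : Ω → ℝ) : ℝ :=
  ∑ᶠ x : ℝ, Real.negMulLog (P.real {ω | X ω = x})

section aux

lemma cnt_equiv {Ω Ω' A : Type*} [Fintype Ω] [Fintype Ω'] (e : Ω ≃ Ω') (f : Ω' → A) (a : A) :
    cnt (fun ω => f (e ω)) a = cnt f a := by
  classical
  unfold cnt
  exact card_equiv e (by simp)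

lemma H_equiv {Ω Ω' A : Type*} [Fintype Ω] [Fintype Ω'] (e : Ω ≃ Ω') (f : Ω' → A) :
    H (fun ω => f (e ω)) = H f := by
  unfold H
  rw [Fintype.card_congr e]
  congr 1
  refine Fintype.sum_equiv e _ _ fun ω => ?_
  rw [cnt_equiv]

lemma cnt_prod {Ω Ω' A B : Type*} [Fintype Ω] [Fintype Ω'] (f : Ω → A) (g : Ω' → B) (a : A)
    (b : B) : cnt (fun p : Ω × Ω' => (f p.1, g p.2)) (a, b) = cnt f a * cnt g b := by
  classical
  unfold cnt
  rw [← card_product]
  congr 1
  ext p
  simp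

lemma H_prod {Ω Ω' A B : Type*} [Fintype Ω] [Fintype Ω'] [Nonempty Ω] [Nonempty Ω'] (f : Ω → A)
    (g : Ω' → B) : H (fun p : Ω × Ω' => (f p.1, g p.2)) = H f + H g := by
  have h1 : (0 : ℝ) < Fintype.card Ω := by exact_mod_cast Fintype.card_pos
  have h2 : (0 : ℝ) < Fintype.card Ω' := by exact_mod_cast Fintype.card_pos
  have key : ∀ p : Ω × Ω', -Real.log ((cnt (fun p : Ω × Ω' => (f p.1, g p.2)) (f p.1, g p.2) : ℝ) /
      Fintype.card (Ω × Ω')) = -Real.log ((cnt f (f p.1) : ℝ) / Fintype.card Ω) +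
        -Real.log ((cnt g (g p.2) : ℝ) / Fintype.card Ω') := by
    intro p
    have h3 : (0 : ℝ) < cnt f (f p.1) := by exact_mod_cast cnt_pos f p.1
    have h4 : (0 : ℝ) < cnt g (g p.2) := by exact_mod_cast cnt_pos g p.2
    rw [cnt_prod, Fintype.card_prod, Nat.cast_mul, Nat.cast_mul, mul_div_mul_comm,
      Real.log_mul (by positivity) (by positivity)]
    ring
  unfold H
  rw [sum_congr rfl fun p _ => key p, sum_add_distrib, Fintype.sum_prod_type,
    Fintype.sum_prod_type_right, Fintype.card_prod]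
  simp only [sum_const, card_univ, nsmul_eq_mul, ← mul_sum]
  push_cast
  field_simp

lemma H_nonneg {Ω A : Type*} [Fintype Ω] (f : Ω → A) : 0 ≤ H f := by
  have := H_mono (fun _ : Ω => ()) f fun _ _ _ => rfl
  rwa [H_const _ fun _ _ => rfl] at this

/-- The signed sum attached to a sign pattern. -/
noncomputable def sg (l : ℝ) (n : ℕ) (ε : Fin n → Bool) : ℝ :=
  ∑ i : Fin n, (if ε i then (1 : ℝ) else -1) * l ^ (i : ℕ)

lemma subadd (l : ℝ) : Subadditive fun n => H (sg l n) := by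
  intro m n
  have h := H_equiv (Fin.appendEquiv (α := Bool) m n) (sg l (m + n))
  simp only
  rw [← h, ← H_prod]
  apply H_mono
  intro p q hpq
  have key : ∀ p : (Fin m → Bool) × (Fin n → Bool),
      sg l (m + n) (Fin.appendEquiv m n p) = sg l m p.1 + l ^ m * sg l n p.2 := by
    intro p
    unfold sg
    rw [Fin.sum_univ_add, mul_sum]
    congr 1
    · refine sum_congr rfl fun i _ => ?_
      simp
    · refine sum_congr rfl fun i _ => ?_
      simp [pow_add]
  rw [key, key, (Prod.mk.inj hpq).1, (Prod.mk.inj hpq).2]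

lemma exists_lim : ∃ h < Real.log bb, Tendsto (fun n : ℕ => H (sg bb⁻¹ n) / n) atTop (𝓝 h) := by
  have h := (subadd bb⁻¹).tendsto_lim ⟨0, by
    rintro _ ⟨n, rfl⟩
    exact div_nonneg (H_nonneg _) (Nat.cast_nonneg _)⟩
  refine ⟨_, ?_, h⟩
  obtain ⟨N, ρ, hN, hK⟩ := exists_chain
  have hN' : (0 : ℝ) < N := by exact_mod_cast hN
  have t0 : Tendsto (fun K : ℕ => K * N) atTop atTop := tendsto_id.atTop_mul_const' hN
  have t1 : Tendsto (fun n : ℕ => (2 * n + 7 : ℝ)) atTop atTop :=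
    tendsto_atTop_add_const_right _ _ (tendsto_natCast_atTop_atTop.const_mul_atTop two_pos)
  have t2 := ((Real.tendsto_pow_log_div_mul_add_atTop (1 / 2) (-7 / 2) 1 (by norm_num)).comp
    t1).comp t0
  have t3 := (t2.const_mul 4).const_add (Real.log bb - 1 / N)
  have := le_of_tendsto_of_tendsto (h.comp t0) t3 (by
    filter_upwards [eventually_gt_atTop 0] with K hK0
    have hK' : (0 : ℝ) < K := by exact_mod_cast hK0
    have h1 := ((H_val_le (K * N)).trans (H_XX_le (K * N) ρ)).trans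
      (add_le_add_left (hK K) _)
    simp only [Function.comp]
    rw [div_le_iff₀ (by push_cast; positivity)]
    refine h1.trans (le_of_eq ?_)
    push_cast
    have e : 1 / 2 * (2 * ((K : ℝ) * N) + 7) + -7 / 2 = K * N := by ring
    rw [e]
    field_simp)
  have h2 : (0 : ℝ) < 1 / N := by positivity
  linarith

lemma law {Ω : Type*} [MeasurableSpace Ω] (P : Measure Ω) [IsProbabilityMeasure P]
    (ξ : ℕ → Ω → ℝ) (hm : ∀ i, Measurable (ξ i)) (hi : iIndepFun ξ P)
    (h1 : ∀ i, P {ω | ξ i ω = 1} = 1 / 2) (h2 : ∀ i, P {ω | ξ i ω = -1} = 1 / 2)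
    (l : ℝ) (n : ℕ) (x : ℝ) :
    P.real {ω | ∑ i ∈ range n, ξ i ω * l ^ i = x} = (cnt (sg l n) x : ℝ) / 2 ^ n := by
  classical
  let s : Bool → ℝ := fun b => if b then 1 else -1
  let C : (Fin n → Bool) → Set Ω := fun ε => ⋂ i : Fin n, ξ i ⁻¹' {s (ε i)}
  have hC : ∀ ε, MeasurableSet (C ε) := fun ε =>
    MeasurableSet.iInter fun i => hm i (measurableSet_singleton _)
  have hs : ∀ i b, P (ξ i ⁻¹' {s b}) = 1 / 2 := by
    intro i b
    cases b
    · exact h2 i
    · exact h1 i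
  have hPC : ∀ ε, P (C ε) = (1 / 2) ^ n := by
    intro ε
    have := (hi.precomp (g := fun i : Fin n => (i : ℕ)) Fin.val_injective).meas_iInter
      (s := fun i : Fin n => ξ i ⁻¹' {s (ε i)}) fun i => ⟨_, measurableSet_singleton _, rfl⟩
    rw [this]
    simp [hs]
  have hae : ∀ᵐ ω ∂P, ∀ i, ξ i ω = 1 ∨ ξ i ω = -1 := by
    rw [ae_all_iff]
    intro i
    have hd : Disjoint {ω | ξ i ω = 1} {ω | ξ i ω = -1} := by
      rw [Set.disjoint_left]
      intro ω a b
      have a' : ξ i ω = 1 := a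
      have b' : ξ i ω = -1 := b
      linarith
    have hm1 : MeasurableSet {ω | ξ i ω = 1} := hm i (measurableSet_singleton _)
    have hm2 : MeasurableSet {ω | ξ i ω = -1} := hm i (measurableSet_singleton _)
    have h3 : P ({ω | ξ i ω = 1} ∪ {ω | ξ i ω = -1}) = 1 := by
      rw [measure_union hd hm2, h1, h2, ENNReal.add_halves]
    exact (prob_compl_eq_zero_iff (hm1.union hm2)).2 h3
  have he : {ω | ∑ i ∈ range n, ξ i ω * l ^ i = x} =ᵐ[P]
      (⋃ ε ∈ univ.filter (fun ε => sg l n ε = x), C ε : Set Ω) := by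
    filter_upwards [hae] with ω hω
    have key : ∀ ε, ω ∈ C ε → ∑ i ∈ range n, ξ i ω * l ^ i = sg l n ε := by
      intro ε hε
      rw [← Fin.sum_univ_eq_sum_range (fun i => ξ i ω * l ^ i)]
      refine sum_congr rfl fun i _ => ?_
      rw [show ξ i ω = s (ε i) from Set.mem_iInter.1 hε i]
    apply propext
    change ∑ i ∈ range n, ξ i ω * l ^ i = x ↔ ω ∈ ⋃ ε ∈ univ.filter (fun ε => sg l n ε = x), C ε
    simp only [Set.mem_iUnion, mem_filter, mem_univ, true_and, exists_prop]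
    constructor
    · intro hx
      have hc : ω ∈ C fun i => decide (ξ i ω = 1) := by
        refine Set.mem_iInter.2 fun i => ?_
        rcases hω i with h | h
        · simp [s, h]
        · simp [s, h, show (-1 : ℝ) ≠ 1 by norm_num]
      exact ⟨_, by rw [← key _ hc, hx], hc⟩
    · rintro ⟨ε, hx, hε⟩
      rw [key ε hε, hx]
  have hd : Set.PairwiseDisjoint (↑(univ.filter (fun ε => sg l n ε = x)) : Set (Fin n → Bool)) C := by
    intro ε _ ε' _ hne
    rw [Function.onFun, Set.disjoint_left]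
    intro ω a b
    apply hne
    funext i
    have a' : ξ i ω = s (ε i) := Set.mem_iInter.1 a i
    have b' : ξ i ω = s (ε' i) := Set.mem_iInter.1 b i
    rw [a'] at b'
    revert b'
    cases ε i <;> cases ε' i <;> simp [s] <;> norm_num
  rw [Measure.real, measure_congr he, measure_biUnion_finset hd fun ε _ => hC ε]
  simp only [hPC, sum_const, nsmul_eq_mul]
  unfold cnt
  simp [div_eq_mul_inv]

end aux

/-- The root `β ∈ (1,2)` of `x^4 - x^3 - x^2 - x + 1` is a Salem number, and the Garsia entropy of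
`β⁻¹` exists and is smaller than `log β`. -/
theorem result : ∃ β : ℝ, β ^ 4 - β ^ 3 - β ^ 2 - β + 1 = 0 ∧ 1 < β ∧ β < 2 ∧ IsSalem β ∧
    ∃ h : ℝ, h < Real.log β ∧
      ∀ (Ω : Type) [MeasurableSpace Ω] (P : Measure Ω) [IsProbabilityMeasure P] (ξ : ℕ → Ω → ℝ),
        (∀ i, Measurable (ξ i)) → iIndepFun ξ P →
        (∀ i, P {ω | ξ i ω = 1} = 1 / 2) → (∀ i, P {ω | ξ i ω = -1} = 1 / 2) →
        Tendsto (fun n : ℕ => shannon P (fun ω => ∑ i ∈ range n, ξ i ω * β⁻¹ ^ i) / n)
          atTop (𝓝 h) := by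
  obtain ⟨h, hlt, ht⟩ := exists_lim
  refine ⟨bb, bb_quartic, one_lt_bb, by linarith [bb_lt], salem_bb, h, hlt, ?_⟩
  intro Ω _ P _ ξ hm hi h1 h2
  refine ht.congr fun n => ?_
  classical
  congr 1
  unfold shannon
  simp only [law P ξ hm hi h1 h2]
  rw [H_eq_sum, finsum_eq_sum_of_support_subset (s := univ.image (sg bb⁻¹ n))]
  · simp
  · intro x hx
    by_contra hx'
    apply hx
    have : cnt (sg bb⁻¹ n) x = 0 := by
      unfold cnt
      rw [card_eq_zero, filter_eq_empty_iff]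
      intro ε _ hε
      exact hx' (by simpa using ⟨ε, hε⟩)
    simp [this]

end Pool.Agent.Results.MP_e840b2_an.GarsiaGap
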