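import Mathlib
import Pool.Agent.Lib.MP_e840b2_an.OP.Top

set_option autoImplicit false

namespace Pool.Agent.Results.MP_e840b2_an.OnePair

open Filter Topology MeasureTheory ProbabilityTheory Finset Polynomial

/-- Shannon entropy (natural logarithm) of a complex random variable with finitely many values. -/
noncomputable def shannon {Ω : Type*} [MeasurableSpace Ω] (P : Measure Ω) (X : Ω → ℂ) : ℝ :=
  ∑ᶠ x : ℂ, Real.negMulLog (P.real {ω | X ω = x})

/-- If `l` is a root inside the unit disc of an irreducible integer polynomial whose roots on the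
unit circle form exactly one conjugate pair, then the Garsia entropy of `l` exists and is smaller
than the logarithm of the Mahler measure. -/
theorem result (p : ℤ[X]) (hp : Irreducible p) (l θ : ℂ) (hl : aeval l p = 0) (_l0 : 0 < ‖l‖)
    (l1 : ‖l‖ < 1) (hθ : aeval θ p = 0) (h1 : ‖θ‖ = 1)
    (h2 : ∀ z : ℂ, aeval z p = 0 → ‖z‖ = 1 → z = θ ∨ z = (starRingEnd ℂ) θ) :
    ∃ h : ℝ, h < Real.log (p.map (Int.castRingHom ℂ)).mahlerMeasure ∧
      ∀ (Ω : Type) [MeasurableSpace Ω] (P : Measure Ω) [IsProbabilityMeasure P] (ξ : ℕ → Ω → ℝ),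
        (∀ i, Measurable (ξ i)) → iIndepFun ξ P →
        (∀ i, P {ω | ξ i ω = 1} = 1 / 2) → (∀ i, P {ω | ξ i ω = -1} = 1 / 2) →
        Tendsto (fun n : ℕ => shannon P (fun ω => ∑ i ∈ range n, (ξ i ω : ℂ) * l ^ i) / n)
          atTop (𝓝 h) := by
  obtain ⟨h, hlt, ht⟩ := Lib.MP_e840b2_an.OP.gap hp hl l1 hθ h1 h2
  refine ⟨h, hlt, ?_⟩
  intro Ω _ P _ ξ hm hi e1 e2
  refine ht.congr fun n => ?_
  classical
  congr 1
  unfold shannon
  simp only [Lib.MP_e840b2_an.OP.law P ξ hm hi e1 e2]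
  rw [Lib.MP_e840b2_an.H_eq_sum,
    finsum_eq_sum_of_support_subset (s := univ.image (Lib.MP_e840b2_an.OP.sg l n))]
  · simp
  · intro x hx
    by_contra hx'
    apply hx
    have : Lib.MP_e840b2_an.cnt (Lib.MP_e840b2_an.OP.sg l n) x = 0 := by
      unfold Lib.MP_e840b2_an.cnt
      rw [card_eq_zero, filter_eq_empty_iff]
      intro ε _ hε
      exact hx' (by simpa using ⟨ε, hε⟩)
    simp [this]

end Pool.Agent.Results.MP_e840b2_an.OnePair
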